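import Pool.Agent.G476.Pk.Pack

set_option autoImplicit false

/-!
# Almost every direction is close to few of the axes of the cones
-/

namespace Pool.Agent.G476.Pk

open MeasureTheory Metric Module

/-- The part of a cone between two spheres. -/
def cone {s : ℕ} (u : VV s) (σ κ R : ℝ) : Set (VV s) :=
  {v | R / 2 ≤ ‖v‖ ∧ ‖v‖ ≤ R ∧ ‖‖v‖⁻¹ • v - u‖ ≤ κ * σ}

theorem vol_cone {s : ℕ} (u : VV s) (hu : ‖u‖ = 1) {σ κ R : ℝ} (h0 : 0 < σ) (h1 : σ ≤ 1)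
    (hκ : 0 ≤ κ) (hR : 0 < R) :
    volume (cone u σ κ R) ≤
      ENNReal.ofReal (2 * (R * (κ + 1)) ^ (s + 1) * σ ^ s) * volume (ball (0 : VV s) 1) := by
  set N : ℕ := ⌊1 / (2 * σ)⌋₊ + 1 with hN
  have hsub : cone u σ κ R ⊆
      ⋃ j ∈ Finset.range N, closedBall ((R * (1 / 2 + σ * (j : ℝ))) • u) (R * (κ + 1) * σ) := by
    rintro v ⟨hv1, hv2, hv3⟩
    have hv0 : 0 < ‖v‖ := by linarith
    set j : ℕ := ⌊(‖v‖ / R - 1 / 2) / σ⌋₊ with hj
    have ht : 1 / 2 ≤ ‖v‖ / R := by rw [le_div_iff₀ hR]; linarith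
    have ht1 : ‖v‖ / R ≤ 1 := by rw [div_le_one hR]; exact hv2
    have hj1 : (j : ℝ) ≤ (‖v‖ / R - 1 / 2) / σ :=
      (Nat.le_floor_iff (div_nonneg (by linarith) h0.le)).1 le_rfl
    have hj2 : (‖v‖ / R - 1 / 2) / σ < j + 1 := Nat.lt_floor_add_one _
    rw [Set.mem_iUnion₂]
    refine ⟨j, ?_, ?_⟩
    · rw [Finset.mem_range, hN, Nat.lt_succ_iff]
      refine Nat.floor_le_floor ?_
      have e0 : 1 / (2 * σ) = (1 / 2) / σ := by rw [div_div]
      rw [e0]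
      gcongr
      linarith
    · rw [mem_closedBall, dist_eq_norm]
      have e1 : v - (R * (1 / 2 + σ * (j : ℝ))) • u =
          ‖v‖ • (‖v‖⁻¹ • v - u) + (‖v‖ - R * (1 / 2 + σ * (j : ℝ))) • u := by
        rw [smul_sub, smul_smul, mul_inv_cancel₀ hv0.ne', one_smul, sub_smul]
        abel
      rw [e1]
      refine (norm_add_le _ _).trans ?_
      rw [norm_smul, norm_smul, norm_norm, hu, mul_one, Real.norm_eq_abs]
      have e2 : ‖v‖ * ‖‖v‖⁻¹ • v - u‖ ≤ R * (κ * σ) :=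
        mul_le_mul hv2 hv3 (norm_nonneg _) hR.le
      have e3 : |‖v‖ - R * (1 / 2 + σ * (j : ℝ))| ≤ R * σ := by
        rw [le_div_iff₀ h0] at hj1
        rw [div_lt_iff₀ h0] at hj2
        have e4 : ‖v‖ = R * (‖v‖ / R) := by field_simp
        rw [abs_le]
        constructor
        · nlinarith [mul_pos hR h0]
        · nlinarith [mul_pos hR h0]
      nlinarith
  refine (measure_mono hsub).trans ((measure_biUnion_finset_le _ _).trans ?_)
  have hfr : finrank ℝ (VV s) = s + 1 := finrank_euclideanSpace_fin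
  have hb : ∀ j ∈ Finset.range N,
      volume (closedBall ((R * (1 / 2 + σ * (j : ℝ))) • u) (R * (κ + 1) * σ)) =
      ENNReal.ofReal ((R * (κ + 1) * σ) ^ (s + 1)) * volume (ball (0 : VV s) 1) := by
    intro j _
    rw [Measure.addHaar_closedBall _ _ (by positivity), hfr]
  rw [Finset.sum_congr rfl hb, Finset.sum_const, Finset.card_range, nsmul_eq_mul, ← mul_assoc]
  gcongr
  rw [← ENNReal.ofReal_natCast, ← ENNReal.ofReal_mul (Nat.cast_nonneg _)]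
  refine ENNReal.ofReal_le_ofReal ?_
  have hN2 : (N : ℝ) ≤ 2 / σ := by
    have e5 : (⌊1 / (2 * σ)⌋₊ : ℝ) ≤ 1 / (2 * σ) := Nat.floor_le (by positivity)
    have e6 : (1 : ℝ) ≤ 1 / σ := by rw [le_div_iff₀ h0]; linarith
    have e7 : 1 / (2 * σ) = 1 / σ / 2 := by field_simp
    have e8 : 2 / σ = 2 * (1 / σ) := by ring
    rw [hN]
    push_cast
    rw [e8]
    linarith
  calc (N : ℝ) * (R * (κ + 1) * σ) ^ (s + 1) ≤ 2 / σ * (R * (κ + 1) * σ) ^ (s + 1) := by gcongr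
    _ = 2 * (R * (κ + 1)) ^ (s + 1) * σ ^ s := by
      rw [mul_pow, pow_succ σ]
      field_simp

theorem ae_finite {s : ℕ} {ι : Type*} [Countable ι] (u : ι → VV s) (σ : ι → ℝ) (hu : ∀ c, ‖u c‖ = 1)
    (h0 : ∀ c, 0 < σ c) (h1 : ∀ c, σ c ≤ 1) (hs : Summable fun c => σ c ^ s) {κ R : ℝ}
    (hκ : 0 ≤ κ) (hR : 0 < R) : ∀ᵐ v : VV s, {c | v ∈ cone (u c) (σ c) κ R}.Finite := by
  refine ae_finite_setOfPred_mem ?_
  refine ne_top_of_le_ne_top ?_
    (ENNReal.tsum_le_tsum fun c => vol_cone (u c) (hu c) (h0 c) (h1 c) hκ hR)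
  rw [ENNReal.tsum_mul_right]
  exact ENNReal.mul_ne_top ((hs.mul_left _).tsum_ofReal_ne_top) measure_ball_lt_top.ne

theorem ae_finite_all {s : ℕ} {ι : Type*} [Countable ι] (u : ι → VV s) (σ : ι → ℝ) (hu : ∀ c, ‖u c‖ = 1)
    (h0 : ∀ c, 0 < σ c) (h1 : ∀ c, σ c ≤ 1) (hs : Summable fun c => σ c ^ s) :
    ∀ᵐ v : VV s, ∀ κ : ℝ, v ≠ 0 → {c | ‖‖v‖⁻¹ • v - u c‖ ≤ κ * σ c}.Finite := by
  have h : ∀ᵐ v : VV s, ∀ (m : ℕ) (k : ℤ), {c | v ∈ cone (u c) (σ c) m ((2 : ℝ) ^ k)}.Finite := by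
    rw [ae_all_iff]
    intro m
    rw [ae_all_iff]
    intro k
    exact ae_finite u σ hu h0 h1 hs (Nat.cast_nonneg m) (by positivity)
  filter_upwards [h] with v hv κ hv0
  obtain ⟨m, hm⟩ := exists_nat_ge κ
  have hvn : 0 < ‖v‖ := norm_pos_iff.2 hv0
  obtain ⟨k, hk1, hk2⟩ := exists_mem_Ico_zpow hvn (one_lt_two)
  refine (hv m (k + 1)).subset fun c hc => ⟨?_, hk2.le, ?_⟩
  · rw [zpow_add_one₀ (by norm_num)]
    linarith
  · refine le_trans hc ?_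
    have := h0 c
    gcongr

theorem finite_ge {s : ℕ} {ι : Type*} {σ : ι → ℝ} (hs : Summable fun c => σ c ^ s) {δ : ℝ}
    (hδ : 0 < δ) : {c | δ ≤ σ c}.Finite := by
  have h2 : ∀ᶠ c in Filter.cofinite, σ c ^ s < δ ^ s :=
    hs.tendsto_cofinite_zero.eventually_lt_const (by positivity)
  refine (Filter.eventually_cofinite.1 h2).subset fun c hc hlt => ?_
  exact absurd (pow_le_pow_left₀ hδ.le hc s) (not_le.2 hlt)

theorem count_small {s : ℕ} (hs1 : 1 ≤ s) {ι : Type*} {σ : ι → ℝ} (h0 : ∀ c, 0 < σ c)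
    (hs : Summable fun c => σ c ^ s) {ε : ℝ} (hε : 0 < ε) :
    ∃ T₀ : ℝ, 1 ≤ T₀ ∧ ∀ T : ℝ, T₀ ≤ T → ({c | 1 / (2 * T) ≤ σ c}.ncard : ℝ) ≤ ε * T ^ s := by
  classical
  obtain ⟨F, hF⟩ := summable_iff_vanishing_norm.1 hs (ε / 2 / 2 ^ s) (by positivity)
  refine ⟨max 1 (2 * F.card / ε), le_max_left _ _, fun T hT => ?_⟩
  have hT1 : 1 ≤ T := (le_max_left _ _).trans hT
  have hT2 : 2 * F.card / ε ≤ T := (le_max_right _ _).trans hT
  have hT0 : 0 < T := by linarith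
  have hfin : {c | 1 / (2 * T) ≤ σ c}.Finite := finite_ge hs (by positivity)
  set B := hfin.toFinset \ F with hB
  have hBd : Disjoint B F := Finset.sdiff_disjoint
  have h1 := hF B hBd
  rw [Real.norm_eq_abs, abs_of_nonneg (Finset.sum_nonneg fun c _ => (pow_pos (h0 c) s).le)] at h1
  have h2 : (B.card : ℝ) * (1 / (2 * T)) ^ s ≤ ∑ c ∈ B, σ c ^ s := by
    rw [← nsmul_eq_mul]
    refine Finset.card_nsmul_le_sum B _ _ fun c hc => ?_
    refine pow_le_pow_left₀ (by positivity) ?_ s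
    exact (hfin.mem_toFinset.1 (Finset.mem_sdiff.1 hc).1)
  have h3 : (B.card : ℝ) ≤ ε / 2 * T ^ s := by
    have h4 : (B.card : ℝ) * (1 / (2 * T)) ^ s ≤ ε / 2 / 2 ^ s := h2.trans h1.le
    rw [one_div, inv_pow, ← div_eq_mul_inv, div_le_iff₀ (by positivity), mul_pow] at h4
    have e1 : ε / 2 / 2 ^ s * (2 ^ s * T ^ s) = ε / 2 * T ^ s := by
      field_simp
    rw [e1] at h4
    exact h4
  have h5 : (F.card : ℝ) ≤ ε / 2 * T ^ s := by
    have e2 : T ≤ T ^ s := le_self_pow₀ hT1 (by omega)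
    rw [div_le_iff₀ hε] at hT2
    nlinarith
  have h6 : {c | 1 / (2 * T) ≤ σ c}.ncard ≤ B.card + F.card := by
    rw [Set.ncard_eq_toFinset_card _ hfin]
    exact Finset.card_le_card_sdiff_add_card
  have h7 : ({c | 1 / (2 * T) ≤ σ c}.ncard : ℝ) ≤ B.card + F.card := by exact_mod_cast h6
  linarith

end Pool.Agent.G476.Pk
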