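import Mathlib
import Pool.Agent.R355.NegCount
import Pool.Agent.G476.Pk.Ae

set_option autoImplicit false

/-!
# The cones of the negative curves on a blow-up of the plane
-/

namespace Pool.Agent.G476.Pk

open MvPolynomial Pool.Agent.TH167 Pool.Agent.TH167.SH Pool.Agent.R355.NegCount MeasureTheory Filter
open scoped Topology

/-- The classes of the irreducible curves of negative self-intersection. -/
def Neg {s : ℕ} (P : Fin s → Fin 2 → ℂ) : Set (ℕ × (Fin s → ℕ)) :=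
  {c | ∃ C, SHDefs.Curve P C c.1 c.2 ∧ SHDefs.inter c.1 c.2 c.1 c.2 < 0}

/-- The sine of the angle of the cone of a negative curve. -/
noncomputable def sg {s : ℕ} (c : ℕ × (Fin s → ℕ)) : ℝ :=
  √(-(SHDefs.inter c.1 c.2 c.1 c.2 : ℝ) / ∑ i, (c.2 i : ℝ) ^ 2)

theorem norm_vec' {s : ℕ} (w : Fin s → ℕ) : ‖vec w‖ ^ 2 = ∑ i, (w i : ℝ) ^ 2 := by
  rw [norm_vec]
  exact Finset.sum_congr rfl fun i _ => (sq _).symm

theorem inter_norm {s : ℕ} (c : ℕ × (Fin s → ℕ)) :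
    (SHDefs.inter c.1 c.2 c.1 c.2 : ℝ) = (c.1 : ℝ) ^ 2 - ‖vec c.2‖ ^ 2 := by
  rw [norm_vec]
  unfold SHDefs.inter
  push_cast
  ring

theorem norm_pos_of_neg {s : ℕ} {c : ℕ × (Fin s → ℕ)} (hc : SHDefs.inter c.1 c.2 c.1 c.2 < 0) :
    0 < ‖vec c.2‖ ∧ (c.1 : ℝ) ^ 2 < ‖vec c.2‖ ^ 2 := by
  have h2 : ((SHDefs.inter c.1 c.2 c.1 c.2 : ℤ) : ℝ) < 0 := by exact_mod_cast hc
  rw [inter_norm] at h2
  have h3 : 0 < ‖vec c.2‖ ^ 2 := by nlinarith [sq_nonneg (c.1 : ℝ)]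
  refine ⟨?_, by linarith⟩
  rcases (norm_nonneg (vec c.2)).lt_or_eq with h | h
  · exact h
  · rw [← h] at h3
    norm_num at h3

theorem sg_sq {s : ℕ} {c : ℕ × (Fin s → ℕ)} (hc : SHDefs.inter c.1 c.2 c.1 c.2 < 0) :
    sg c ^ 2 = 1 - (c.1 : ℝ) ^ 2 / ‖vec c.2‖ ^ 2 := by
  obtain ⟨h1, h2⟩ := norm_pos_of_neg hc
  unfold sg
  rw [Real.sq_sqrt, inter_norm, ← norm_vec']
  · field_simp
    ring
  · rw [inter_norm, ← norm_vec']
    exact div_nonneg (by linarith) (by positivity)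

theorem sg_pos {s : ℕ} {c : ℕ × (Fin s → ℕ)} (hc : SHDefs.inter c.1 c.2 c.1 c.2 < 0) :
    0 < sg c := by
  obtain ⟨h1, h2⟩ := norm_pos_of_neg hc
  unfold sg
  rw [inter_norm, ← norm_vec']
  exact Real.sqrt_pos.2 (div_pos (by linarith) (by positivity))

theorem sg_le {s : ℕ} {c : ℕ × (Fin s → ℕ)} (hc : SHDefs.inter c.1 c.2 c.1 c.2 < 0) :
    sg c ≤ 1 := by
  obtain ⟨h1, h2⟩ := norm_pos_of_neg hc
  have h3 := sg_sq hc
  have h4 : 0 ≤ (c.1 : ℝ) ^ 2 / ‖vec c.2‖ ^ 2 := by positivity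
  nlinarith [sg_pos hc]

theorem norm_uv {s : ℕ} {c : ℕ × (Fin s → ℕ)} (hc : SHDefs.inter c.1 c.2 c.1 c.2 < 0) :
    ‖uv c.2‖ = 1 := by
  obtain ⟨h1, h2⟩ := norm_pos_of_neg hc
  unfold Pool.Agent.R355.NegCount.uv
  rw [norm_smul, norm_inv, norm_norm, inv_mul_cancel₀ h1.ne']

theorem inner_uv {s : ℕ} {P : Fin s → Fin 2 → ℂ} (hP : Function.Injective P)
    {a b : ℕ × (Fin s → ℕ)} (ha : a ∈ Neg P) (hb : b ∈ Neg P) (hab : a ≠ b) :
    (inner ℝ (uv a.2) (uv b.2)) ^ 2 ≤ (1 - sg a ^ 2) * (1 - sg b ^ 2) := by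
  obtain ⟨A, hA, ha'⟩ := ha
  obtain ⟨B, hB, hb'⟩ := hb
  obtain ⟨A1, A2, A3⟩ := curve_iff.1 hA
  obtain ⟨B1, B2, B3⟩ := curve_iff.1 hB
  have a1 := (norm_pos_of_neg ha').1
  have b1 := (norm_pos_of_neg hb').1
  have h1 := ip_nonneg hP B1 B2 B3 A1 A2 A3 (by
    intro h
    exact hab (Prod.ext (congrArg Prod.fst h) (congrArg Prod.snd h)))
  have h2 : inner ℝ (vec a.2) (vec b.2) ≤ (a.1 : ℝ) * b.1 := by
    rw [inner_vec]
    unfold ip at h1
    have h3 : ∑ j, ((a.2 j : ℤ) * (b.2 j : ℤ)) ≤ (a.1 : ℤ) * b.1 := by linarith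
    exact_mod_cast h3
  have h0 : 0 ≤ inner ℝ (vec a.2) (vec b.2) := by
    rw [inner_vec]
    exact Finset.sum_nonneg fun i _ => by positivity
  have h4 : inner ℝ (uv a.2) (uv b.2) = inner ℝ (vec a.2) (vec b.2) / (‖vec a.2‖ * ‖vec b.2‖) := by
    unfold Pool.Agent.R355.NegCount.uv
    rw [real_inner_smul_left, real_inner_smul_right]
    field_simp
  rw [h4, sg_sq ha', sg_sq hb', sub_sub_cancel, sub_sub_cancel, div_mul_div_comm, div_pow, mul_pow]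
  refine div_le_div_of_nonneg_right ?_ (by positivity)
  rw [← mul_pow]
  exact pow_le_pow_left₀ h0 h2 2

theorem sum_le {s : ℕ} {P : Fin (s + 1) → Fin 2 → ℂ} (hP : Function.Injective P)
    (A : Finset (Neg P)) : ∑ c ∈ A, sg c.1 ^ s ≤ (5 : ℝ) ^ (s + 1) := by
  have hn : ∀ c : Neg P, SHDefs.inter c.1.1 c.1.2 c.1.1 c.1.2 < 0 := fun c => c.2.choose_spec.2
  exact finite_pack A (fun c => uv c.1.2) (fun c => sg c.1) (fun c _ => norm_uv (hn c))
    (fun c _ => sg_pos (hn c)) (fun c _ => sg_le (hn c)) fun c _ c' _ hcc =>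
      inner_uv hP c.2 c'.2 fun h => hcc (Subtype.ext h)

theorem summable_sg {s : ℕ} {P : Fin (s + 1) → Fin 2 → ℂ} (hP : Function.Injective P) :
    Summable fun c : Neg P => sg c.1 ^ s :=
  summable_of_sum_le (fun c => pow_nonneg (Real.sqrt_nonneg _) s) (sum_le hP)

theorem tsum_sg {s : ℕ} {P : Fin (s + 1) → Fin 2 → ℂ} (hP : Function.Injective P) :
    ∑' c : Neg P, sg c.1 ^ s ≤ (5 : ℝ) ^ (s + 1) :=
  (summable_sg hP).tsum_le_of_sum_le (sum_le hP)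

/-- The number of the negative curves is `o (T ^ s)`. -/
theorem tendsto_count {s : ℕ} (hs : 1 ≤ s) {P : Fin (s + 1) → Fin 2 → ℂ}
    (hP : Function.Injective P) :
    Tendsto (fun T : ℝ => ((NegClasses P T).ncard : ℝ) / T ^ s) atTop (𝓝 0) := by
  have hn : ∀ c : Neg P, SHDefs.inter c.1.1 c.1.2 c.1.1 c.1.2 < 0 := fun c => c.2.choose_spec.2
  rw [Metric.tendsto_atTop]
  intro ε hε
  obtain ⟨T₀, hT₀, h⟩ := count_small (σ := fun c : Neg P => sg c.1) hs (fun c => sg_pos (hn c))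
    (summable_sg hP) (half_pos hε)
  refine ⟨T₀, fun T hT => ?_⟩
  have hT1 : 1 ≤ T := hT₀.trans hT
  have hT0 : 0 < T := by linarith
  have h1 := h T hT
  have hfin : {c : Neg P | 1 / (2 * T) ≤ sg c.1}.Finite :=
    finite_ge (summable_sg hP) (by positivity)
  have hsub : NegClasses P T ⊆ Subtype.val '' {c : Neg P | 1 / (2 * T) ≤ sg c.1} := by
    intro c hc
    have h2 := norm_bound hT1 hc
    obtain ⟨C, hC, hneg, hle⟩ := hc
    refine ⟨⟨c, C, hC, hneg⟩, ?_, rfl⟩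
    obtain ⟨h3, h4⟩ := norm_pos_of_neg hneg
    have h5 := sg_sq hneg
    show 1 / (2 * T) ≤ sg c
    have h6 : (1 / (2 * T)) ^ 2 ≤ sg c ^ 2 := by
      rw [h5, one_div, inv_pow, inv_eq_one_div, le_sub_iff_add_le, ← le_sub_iff_add_le',
        div_le_iff₀ (by positivity)]
      have e1 : (1 - 1 / (2 * T) ^ 2) * ‖vec c.2‖ ^ 2 - (c.1 : ℝ) ^ 2 =
          ((T ^ 2 * ‖vec c.2‖ ^ 2 - (c.1 : ℝ) ^ 2 * (T ^ 2 + 1)) * (4 * T ^ 2) +
            (3 * T ^ 2 - 1) * ‖vec c.2‖ ^ 2) / (4 * T ^ 2 * (T ^ 2 + 1)) := by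
        field_simp
        ring
      have e2 : 0 ≤ (1 - 1 / (2 * T) ^ 2) * ‖vec c.2‖ ^ 2 - (c.1 : ℝ) ^ 2 := by
        rw [e1]
        refine div_nonneg (add_nonneg (mul_nonneg (by linarith) (by positivity))
          (mul_nonneg (by nlinarith) (by positivity))) (by positivity)
      linarith
    exact abs_le_of_sq_le_sq' h6 (sg_pos hneg).le |>.2
  have h7 : (NegClasses P T).ncard ≤ {c : Neg P | 1 / (2 * T) ≤ sg c.1}.ncard :=
    (Set.ncard_le_ncard hsub (hfin.image _)).trans (Set.ncard_image_le hfin)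
  have h8 : ((NegClasses P T).ncard : ℝ) ≤ ε / 2 * T ^ s := (Nat.cast_le.2 h7).trans h1
  rw [Real.dist_eq, sub_zero, abs_of_nonneg (by positivity), div_lt_iff₀ (by positivity)]
  have : 0 < T ^ s := by positivity
  nlinarith

/-- Almost every direction. -/
theorem ae_curves {s : ℕ} {P : Fin (s + 1) → Fin 2 → ℂ} (hP : Function.Injective P) :
    ∀ᵐ v : VV s, ∀ K : ℝ, {c : ℕ × (Fin (s + 1) → ℕ) | c ∈ Neg P ∧
      (c.1 : ℝ) * (c.1 * ‖v‖ - ∑ i, v i * c.2 i) ≤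
        K * ‖v‖ * -(SHDefs.inter c.1 c.2 c.1 c.2 : ℝ)}.Finite := by
  have hn : ∀ c : Neg P, SHDefs.inter c.1.1 c.1.2 c.1.1 c.1.2 < 0 := fun c => c.2.choose_spec.2
  have h0 : ∀ᵐ v : VV s, v ≠ 0 := by
    rw [ae_iff]
    have : {a : VV s | ¬ a ≠ 0} = {0} := by
      ext a
      simp
    rw [this]
    exact measure_singleton 0
  filter_upwards [h0, ae_finite_all (fun c : Neg P => uv c.1.2) (fun c => sg c.1)
    (fun c => norm_uv (hn c)) (fun c => sg_pos (hn c)) (fun c => sg_le (hn c))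
    (summable_sg hP)] with v hv0 hv K
  set κ : ℝ := √(2 * (1 + 2 * |K|)) with hκ
  have hvn : 0 < ‖v‖ := norm_pos_iff.2 hv0
  have hf1 := hv κ hv0
  have hf2 : {c : Neg P | 1 / 2 ≤ sg c.1}.Finite := finite_ge (summable_sg hP) (by norm_num)
  refine ((hf1.union hf2).image Subtype.val).subset ?_
  rintro c ⟨hc, hle⟩
  refine ⟨⟨c, hc⟩, ?_, rfl⟩
  obtain ⟨C, hC, hneg⟩ := hc
  by_cases hs : 1 / 2 ≤ sg c
  · exact Or.inr hs
  left
  rw [not_le] at hs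
  obtain ⟨h1, h2⟩ := norm_pos_of_neg hneg
  have h3 := sg_sq hneg
  have h4 := sg_pos hneg
  show ‖‖v‖⁻¹ • v - uv c.2‖ ≤ κ * sg c
  -- the cosines
  set y : ℝ := (c.1 : ℝ) / ‖vec c.2‖ with hy
  set x : ℝ := inner ℝ v (vec c.2) / (‖v‖ * ‖vec c.2‖) with hx
  have hin : inner ℝ v (vec c.2) = ∑ i, v i * c.2 i := by
    unfold vec
    rw [EuclideanSpace.inner_eq_star_dotProduct]
    simp [dotProduct, mul_comm]
  have hy2 : sg c ^ 2 = 1 - y ^ 2 := by rw [h3, hy, div_pow]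
  have hy0 : 0 ≤ y := by positivity
  have hy1 : y ≤ 1 := by nlinarith [sq_nonneg (sg c)]
  have hyh : 1 / 2 ≤ y := by nlinarith
  have h5 : y * (y - x) ≤ K * sg c ^ 2 := by
    have e1 : y * (y - x) =
        ((c.1 : ℝ) * (c.1 * ‖v‖ - ∑ i, v i * c.2 i)) / (‖v‖ * ‖vec c.2‖ ^ 2) := by
      rw [hy, hx, hin]
      field_simp
    have e2 : K * sg c ^ 2 =
        (K * ‖v‖ * -(SHDefs.inter c.1 c.2 c.1 c.2 : ℝ)) / (‖v‖ * ‖vec c.2‖ ^ 2) := by
      rw [h3, inter_norm]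
      field_simp
      ring
    rw [e1, e2]
    exact div_le_div_of_nonneg_right hle (by positivity)
  have h6 : y - x ≤ 2 * |K| * sg c ^ 2 := by
    by_cases hyx : y - x ≤ 0
    · have : 0 ≤ 2 * |K| * sg c ^ 2 := by positivity
      linarith
    · rw [not_le] at hyx
      have e3 : K * sg c ^ 2 ≤ |K| * sg c ^ 2 :=
        mul_le_mul_of_nonneg_right (le_abs_self K) (sq_nonneg _)
      nlinarith
  have h7 : 1 - x ≤ (1 + 2 * |K|) * sg c ^ 2 := by nlinarith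
  have h8 : ‖‖v‖⁻¹ • v - uv c.2‖ ^ 2 = 2 * (1 - x) := by
    have e4 : ‖‖v‖⁻¹ • v‖ = 1 := by
      rw [norm_smul, norm_inv, norm_norm, inv_mul_cancel₀ hvn.ne']
    rw [norm_sub_sq_real, e4, norm_uv hneg]
    unfold Pool.Agent.R355.NegCount.uv
    rw [real_inner_smul_left, real_inner_smul_right, hx]
    field_simp
    ring
  have h9 : ‖‖v‖⁻¹ • v - uv c.2‖ ^ 2 ≤ (κ * sg c) ^ 2 := by
    rw [h8, mul_pow, hκ, Real.sq_sqrt (by positivity)]
    nlinarith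
  exact abs_le_of_sq_le_sq' h9 (by positivity) |>.2

/-- Almost every class of self-intersection zero is negative on finitely many curves only. -/
theorem ae_obstruct {s : ℕ} {P : Fin (s + 1) → Fin 2 → ℂ} (hP : Function.Injective P) :
    ∀ᵐ v : VV s, {c : ℕ × (Fin (s + 1) → ℕ) | (∃ C, SHDefs.Curve P C c.1 c.2) ∧
      (c.1 : ℝ) * ‖v‖ < ∑ i, v i * c.2 i}.Finite := by
  filter_upwards [ae_curves hP] with v hv
  refine (hv 0).subset ?_
  rintro c ⟨⟨C, hC⟩, hlt⟩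
  have hin : inner ℝ v (vec c.2) = ∑ i, v i * c.2 i := by
    unfold vec
    rw [EuclideanSpace.inner_eq_star_dotProduct]
    simp [dotProduct, mul_comm]
  have h1 : (c.1 : ℝ) * ‖v‖ < ‖v‖ * ‖vec c.2‖ := by
    refine hlt.trans_le ?_
    rw [← hin]
    exact real_inner_le_norm _ _
  have hv0 : 0 < ‖v‖ := by
    rcases (norm_nonneg v).lt_or_eq with h | h
    · exact h
    · rw [← h] at h1
      simp at h1
  have h2 : (c.1 : ℝ) < ‖vec c.2‖ := by nlinarith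
  have h3 : (SHDefs.inter c.1 c.2 c.1 c.2 : ℝ) < 0 := by
    rw [inter_norm]
    have : (0 : ℝ) ≤ c.1 := Nat.cast_nonneg _
    nlinarith
  have h4 : SHDefs.inter c.1 c.2 c.1 c.2 < 0 := by exact_mod_cast h3
  refine ⟨⟨C, hC, h4⟩, ?_⟩
  rw [zero_mul, zero_mul]
  exact mul_nonpos_of_nonneg_of_nonpos (Nat.cast_nonneg _) (by linarith)

end Pool.Agent.G476.Pk
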