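import Mathlib

set_option autoImplicit false

/-!
# Packing of cones: a weighted form
-/

namespace Pool.Agent.G476.Pk

open MeasureTheory Metric Module

/-- Points on two separated rays are far from each other. -/
theorem sep {E : Type*} [NormedAddCommGroup E] [InnerProductSpace ℝ E] {u v : E} (hu : ‖u‖ = 1)
    (hv : ‖v‖ = 1) {a b t r : ℝ} (ha0 : 0 ≤ a) (ha : a ≤ 1) (hb0 : 0 ≤ b) (hb : b ≤ 1)
    (h : (inner ℝ u v) ^ 2 ≤ (1 - a ^ 2) * (1 - b ^ 2)) (ht : 1 / 2 ≤ t) :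
    (a + b) / 4 ≤ ‖t • u - r • v‖ := by
  have h1 : ‖t • u - r • v‖ ^ 2 = t ^ 2 - 2 * t * r * inner ℝ u v + r ^ 2 := by
    rw [norm_sub_sq_real, norm_smul, norm_smul, real_inner_smul_left, real_inner_smul_right, hu, hv,
      mul_one, mul_one, Real.norm_eq_abs, Real.norm_eq_abs, sq_abs, sq_abs]
    ring
  have h2 : ((a + b) / 4) ^ 2 ≤ ‖t • u - r • v‖ ^ 2 := by
    rw [h1]
    set k : ℝ := inner ℝ u v with hk
    have h3 : (a ^ 2 + b ^ 2 - a ^ 2 * b ^ 2) ≤ 1 - k ^ 2 := by nlinarith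
    have h4 : (a + b) ^ 2 / 4 ≤ a ^ 2 + b ^ 2 - a ^ 2 * b ^ 2 := by
      have e1 : a ^ 2 * b ^ 2 ≤ a * b := by
        have : a * b ≤ 1 := mul_le_one₀ ha hb0 hb
        nlinarith [mul_nonneg ha0 hb0]
      nlinarith [sq_nonneg (a - b), mul_nonneg ha0 hb0, sq_nonneg (a + b)]
    have h5 : t ^ 2 - 2 * t * r * k + r ^ 2 = (r - t * k) ^ 2 + t ^ 2 * (1 - k ^ 2) := by ring
    rw [h5]
    have h6 : (0 : ℝ) ≤ (a + b) ^ 2 / 4 := by positivity
    have h7 : (1 : ℝ) / 4 ≤ t ^ 2 := by nlinarith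
    have h8 : 1 / 4 * ((a + b) ^ 2 / 4) ≤ t ^ 2 * (1 - k ^ 2) :=
      mul_le_mul h7 (by linarith) h6 (by positivity)
    nlinarith [sq_nonneg (r - t * k)]
  exact abs_le_of_sq_le_sq' h2 (norm_nonneg _) |>.2

/-- The Euclidean space of dimension `s + 1`. -/
abbrev VV (s : ℕ) := EuclideanSpace ℝ (Fin (s + 1))

theorem finite_pack {s : ℕ} {ι : Type*} (A : Finset ι)
    (u : ι → VV s) (σ : ι → ℝ) (hu : ∀ c ∈ A, ‖u c‖ = 1)
    (h0 : ∀ c ∈ A, 0 < σ c) (h1 : ∀ c ∈ A, σ c ≤ 1)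
    (hsep : ∀ c ∈ A, ∀ c' ∈ A, c ≠ c' →
      (inner ℝ (u c) (u c')) ^ 2 ≤ (1 - σ c ^ 2) * (1 - σ c' ^ 2)) :
    ∑ c ∈ A, σ c ^ s ≤ 5 ^ (s + 1) := by
  classical
  set J : ι → ℕ := fun c => ⌊1 / σ c⌋₊ + 1 with hJ
  set I : Finset (Σ _ : ι, ℕ) := A.sigma fun c => Finset.range (J c) with hI
  set ctr : (Σ _ : ι, ℕ) → VV s := fun p => (1 / 2 + σ p.1 / 2 * p.2) • u p.1 with hctr
  have hdisj : (I : Set (Σ _ : ι, ℕ)).PairwiseDisjoint fun p => ball (ctr p) (σ p.1 / 4) := by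
    intro p hp q hq hpq
    have hp1 : p.1 ∈ A := (Finset.mem_sigma.1 hp).1
    have hq1 : q.1 ∈ A := (Finset.mem_sigma.1 hq).1
    refine ball_disjoint_ball ?_
    rw [dist_eq_norm]
    by_cases hc : p.1 = q.1
    · obtain ⟨c, i⟩ := p
      obtain ⟨c', j⟩ := q
      simp only at hc
      subst hc
      have hij : i ≠ j := fun h => hpq (by rw [h])
      have e1 : ctr ⟨c, i⟩ - ctr ⟨c, j⟩ = (σ c / 2 * ((i : ℝ) - j)) • u c := by
        simp only [hctr]
        rw [← sub_smul]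
        congr 1
        ring
      rw [e1, norm_smul, hu c hp1, mul_one, Real.norm_eq_abs, abs_mul,
        abs_of_pos (half_pos (h0 c hp1))]
      have e2 : (1 : ℝ) ≤ |(i : ℝ) - j| := by
        have : (1 : ℤ) ≤ |(i : ℤ) - j| := Int.one_le_abs (by omega)
        exact_mod_cast this
      have := h0 c hp1
      simp only
      nlinarith
    · have := sep (t := 1 / 2 + σ p.1 / 2 * p.2) (r := 1 / 2 + σ q.1 / 2 * q.2) (hu _ hp1)
        (hu _ hq1) (h0 _ hp1).le (h1 _ hp1) (h0 _ hq1).le (h1 _ hq1)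
        (hsep _ hp1 _ hq1 hc) (by have := h0 _ hp1; have : 0 ≤ σ p.1 / 2 * p.2 := by positivity
                                  linarith)
      have e3 : σ p.1 / 4 + σ q.1 / 4 = (σ p.1 + σ q.1) / 4 := by ring
      rw [e3]
      exact this
  have hsub : (⋃ p ∈ I, ball (ctr p) (σ p.1 / 4)) ⊆ ball (0 : VV s) (5 / 4) := by
    refine Set.iUnion₂_subset fun p hp => ?_
    have hp1 : p.1 ∈ A := (Finset.mem_sigma.1 hp).1
    have hp2 : p.2 < J p.1 := Finset.mem_range.1 (Finset.mem_sigma.1 hp).2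
    have hσ := h0 _ hp1
    have hσ1 := h1 _ hp1
    have e4 : (p.2 : ℝ) ≤ 1 / σ p.1 := by
      have : p.2 ≤ ⌊1 / σ p.1⌋₊ := by simp only [hJ] at hp2; omega
      exact (Nat.le_floor_iff (by positivity)).1 this
    have e5 : σ p.1 / 2 * p.2 ≤ 1 / 2 := by
      rw [le_div_iff₀ hσ] at e4
      linarith
    intro x hx
    rw [mem_ball, dist_eq_norm] at hx
    rw [mem_ball_zero_iff]
    have e6 : ‖ctr p‖ ≤ 1 := by
      simp only [hctr]
      rw [norm_smul, hu _ hp1, mul_one, Real.norm_eq_abs, abs_of_nonneg (by positivity)]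
      linarith
    calc ‖x‖ = ‖(x - ctr p) + ctr p‖ := by rw [sub_add_cancel]
      _ ≤ ‖x - ctr p‖ + ‖ctr p‖ := norm_add_le _ _
      _ < 5 / 4 := by linarith
  have hvol : ∑ p ∈ I, volume (ball (ctr p) (σ p.1 / 4)) ≤ volume (ball (0 : VV s) (5 / 4)) := by
    rw [← measure_biUnion_finset hdisj fun p _ => measurableSet_ball]
    exact measure_mono hsub
  have hfr : finrank ℝ (VV s) = s + 1 := finrank_euclideanSpace_fin
  have hω0 : volume (ball (0 : VV s) 1) ≠ 0 := (measure_ball_pos volume _ one_pos).ne'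
  have hω1 : volume (ball (0 : VV s) 1) ≠ ⊤ := measure_ball_lt_top.ne
  have h2 : ∑ p ∈ I, ENNReal.ofReal ((σ p.1 / 4) ^ (s + 1)) ≤ ENNReal.ofReal ((5 / 4) ^ (s + 1)) := by
    have e7 : ∑ p ∈ I, volume (ball (ctr p) (σ p.1 / 4)) =
        (∑ p ∈ I, ENNReal.ofReal ((σ p.1 / 4) ^ (s + 1))) * volume (ball (0 : VV s) 1) := by
      rw [Finset.sum_mul]
      refine Finset.sum_congr rfl fun p hp => ?_
      have hσ := h0 _ (Finset.mem_sigma.1 hp).1
      rw [Measure.addHaar_ball _ _ (by positivity), hfr]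
    have e8 : volume (ball (0 : VV s) (5 / 4)) =
        ENNReal.ofReal ((5 / 4) ^ (s + 1)) * volume (ball (0 : VV s) 1) := by
      rw [Measure.addHaar_ball _ _ (by positivity), hfr]
    rw [e7, e8] at hvol
    exact (ENNReal.mul_le_mul_iff_left hω0 hω1).1 hvol
  rw [← ENNReal.ofReal_sum_of_nonneg, ENNReal.ofReal_le_ofReal_iff (by positivity)] at h2
  swap
  · intro p hp
    have hσ := h0 _ (Finset.mem_sigma.1 hp).1
    positivity
  rw [hI, Finset.sum_sigma] at h2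
  have h3 : ∑ c ∈ A, σ c ^ s / 4 ^ (s + 1) ≤ (5 / 4 : ℝ) ^ (s + 1) := by
    refine le_trans (Finset.sum_le_sum fun c hc => ?_) h2
    have hσ := h0 c hc
    simp only [Finset.sum_const, Finset.card_range, nsmul_eq_mul, div_pow]
    have e9 : 1 / σ c ≤ (J c : ℝ) := by
      have := (Nat.lt_floor_add_one (1 / σ c)).le
      simp only [hJ]
      push_cast
      exact this
    have e10 : σ c ^ s / 4 ^ (s + 1) = 1 / σ c * (σ c ^ (s + 1) / 4 ^ (s + 1)) := by
      field_simp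
      ring
    rw [e10]
    exact mul_le_mul_of_nonneg_right e9 (by positivity)
  rw [← Finset.sum_div, div_le_iff₀ (by positivity), ← mul_pow] at h3
  norm_num at h3
  exact h3

end Pool.Agent.G476.Pk
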